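import Mathlib

namespace Pool.Agent.H.MP_c87117_nt

open Polynomial Finset

variable {F : Type*} [Field F]

noncomputable def th (f : F[X]) : F[X] := X * (2 + X) * (1 + 2 * X) * derivative f

lemma pow_der (f : F[X]) (n : ℕ) : f * derivative (f ^ n) = n * derivative f * f ^ n := by
  cases n with
  | zero => simp
  | succ n => rw [derivative_pow_succ]; simp only [map_add, map_natCast, map_one]; push_cast; ring

lemma d2 : derivative (2 : F[X]) = 0 := by simp

lemma th_mon (a b c : ℕ) : th ((X : F[X]) ^ a * (2 + X) ^ b * (1 + 2 * X) ^ c) =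
    ((a : F[X]) * ((2 + X) * (1 + 2 * X)) + (b : F[X]) * (X * (1 + 2 * X)) +
      2 * (c : F[X]) * (X * (2 + X))) * (X ^ a * (2 + X) ^ b * (1 + 2 * X) ^ c) := by
  have h1 := pow_der (X : F[X]) a
  have h2 := pow_der (2 + X : F[X]) b
  have h3 := pow_der (1 + 2 * X : F[X]) c
  simp only [derivative_X, derivative_add, derivative_mul, d2, derivative_one, zero_add, zero_mul,
    mul_one] at h1 h2 h3
  unfold th
  simp only [derivative_mul]
  linear_combination ((2 + X) * (1 + 2 * X) * (2 + X) ^ b * (1 + 2 * X) ^ c) * h1 +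
    (X * (1 + 2 * X) * X ^ a * (1 + 2 * X) ^ c) * h2 + (X * (2 + X) * X ^ a * (2 + X) ^ b) * h3

lemma th_mul (f g : F[X]) : th (f * g) = th f * g + f * th g := by
  unfold th; rw [derivative_mul]; ring

lemma th_add (f g : F[X]) : th (f + g) = th f + th g := by
  unfold th; rw [derivative_add]; ring

lemma th_sub (f g : F[X]) : th (f - g) = th f - th g := by
  unfold th; rw [derivative_sub]; ring

lemma th_nat (c : ℕ) (f : F[X]) : th ((c : F[X]) * f) = c * th f := by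
  unfold th; rw [derivative_mul, derivative_natCast]; ring

noncomputable def L (f : F[X]) : F[X] := (1 - X ^ 2) * th (th f) -
  2 * X ^ 2 * (2 + X) * (1 + 2 * X) * th f +
  2 * (X * (2 + X) * (1 + 2 * X)) * (1 - 6 * X ^ 2 - 4 * X ^ 3) * f

lemma L_sub (f g : F[X]) : L (f - g) = L f - L g := by
  unfold L; rw [th_sub, th_sub]; ring

lemma L_sum (s : Finset ℕ) (c : ℕ → ℕ) (f : ℕ → F[X]) :
    L (∑ k ∈ s, (c k : F[X]) * f k) = ∑ k ∈ s, (c k : F[X]) * L (f k) := by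
  induction s using Finset.induction_on with
  | empty => simp [L, th]
  | insert a s ha ih =>
    rw [sum_insert ha, sum_insert ha, ← ih]
    unfold L
    rw [th_add, th_add, th_nat, th_nat]
    ring

lemma th_lin (a b c : ℕ) : th ((a : F[X]) * ((2 + X) * (1 + 2 * X)) +
    (b : F[X]) * (X * (1 + 2 * X)) + 2 * (c : F[X]) * (X * (2 + X))) = X * (2 + X) * (1 + 2 * X) *
      ((a : F[X]) * (5 + 4 * X) + (b : F[X]) * (1 + 4 * X) + 2 * (c : F[X]) * (2 + 2 * X)) := by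
  unfold th
  simp only [derivative_X, derivative_add, derivative_mul, d2, derivative_one, derivative_natCast]
  ring

lemma L_u (k j : ℕ) (h : (2 * (k + j) + 1 : F[X]) = 0) :
    L ((X : F[X]) ^ k * (2 + X) ^ (3 * k) * (1 + 2 * X) ^ (3 * j)) = 4 * (1 - X) ^ 2 *
      ((k : F[X]) ^ 2 * (1 + 2 * X) ^ 3 - (j : F[X]) ^ 2 * (X * (2 + X) ^ 3)) *
      (X ^ k * (2 + X) ^ (3 * k) * (1 + 2 * X) ^ (3 * j)) := by
  unfold L
  rw [th_mon, th_mul, th_lin, th_mon]
  push_cast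
  generalize (X : F[X]) ^ k * (2 + X) ^ (3 * k) * (1 + 2 * X) ^ (3 * j) = m
  linear_combination m * (X * (4 + 16 * j + 8 * k) + X ^ 2 * (10 + 64 * j + 44 * k) +
    X ^ 3 * (-20 + 52 * j + 68 * k) + X ^ 4 * (-76 - 52 * j - 8 * k) +
    X ^ 5 * (-64 - 64 * j - 80 * k) + X ^ 6 * (-16 - 16 * j - 32 * k)) * h

lemma L_v (k j : ℕ) (h : (2 * (k + j) + 1 : F[X]) = 0) :
    L ((X : F[X]) ^ (3 * k) * (2 + X) ^ k * (1 + 2 * X) ^ j) = 36 * (1 + X) ^ 2 *
      ((k : F[X]) ^ 2 * (1 + 2 * X) - (j : F[X]) ^ 2 * (X ^ 3 * (2 + X))) *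
      (X ^ (3 * k) * (2 + X) ^ k * (1 + 2 * X) ^ j) := by
  unfold L
  rw [th_mon, th_mul, th_lin, th_mon]
  push_cast
  generalize (X : F[X]) ^ (3 * k) * (2 + X) ^ k * (1 + 2 * X) ^ j = m
  linear_combination m * (X * (4 + 24 * k) + X ^ 2 * (10 + 8 * j + 68 * k) +
    X ^ 3 * (-20 + 44 * j - 4 * k) + X ^ 4 * (-76 + 84 * j - 144 * k) +
    X ^ 5 * (-64 + 64 * j - 128 * k) + X ^ 6 * (-16 + 16 * j - 32 * k)) * h

lemma tele (h : ℕ) (P Q : F[X]) (m : ℕ → ℕ → F[X]) (hm : ∀ k j, P * m k (j + 1) = Q * m (k + 1) j) :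
    ∑ k ∈ range (h + 1), ((h.choose k ^ 2 : ℕ) : F[X]) *
      (((k : F[X]) ^ 2 * Q - ((h - k : ℕ) : F[X]) ^ 2 * P) * m k (h - k)) = 0 := by
  have e := sum_range_sub' (fun k => ((h.choose k ^ 2 : ℕ) : F[X]) * ((k : F[X]) ^ 2 * Q * m k (h - k))) h
  rw [sum_range_succ]
  have e2 : ∑ k ∈ range h, ((h.choose k ^ 2 : ℕ) : F[X]) *
      (((k : F[X]) ^ 2 * Q - ((h - k : ℕ) : F[X]) ^ 2 * P) * m k (h - k)) =
      ∑ k ∈ range h, (((h.choose k ^ 2 : ℕ) : F[X]) * ((k : F[X]) ^ 2 * Q * m k (h - k)) -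
      ((h.choose (k + 1) ^ 2 : ℕ) : F[X]) * (((k + 1 : ℕ) : F[X]) ^ 2 * Q * m (k + 1) (h - (k + 1)))) := by
    refine sum_congr rfl fun k hk => ?_
    obtain ⟨j, rfl⟩ : ∃ j, h = k + j + 1 := ⟨h - k - 1, by have := mem_range.1 hk; omega⟩
    have c := Nat.choose_succ_right_eq (k + j + 1) k
    rw [show k + j + 1 - k = j + 1 by omega] at c ⊢
    rw [show k + j + 1 - (k + 1) = j by omega]
    have c' := congrArg (Nat.cast : ℕ → F[X]) c
    have := hm k j
    push_cast at c' ⊢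
    linear_combination (-((k + j + 1).choose k : F[X]) ^ 2 * (j + 1) ^ 2) * this +
      (Q * m (k + 1) j * (((k + j + 1).choose (k + 1) : F[X]) * (k + 1) +
        ((k + j + 1).choose k : F[X]) * (j + 1))) * c'
  rw [e2, e]
  simp

noncomputable def u (F : Type*) [Field F] (h : ℕ) : F[X] := ∑ k ∈ range (h + 1),
  ((h.choose k ^ 2 : ℕ) : F[X]) * (X ^ k * (2 + X) ^ (3 * k) * (1 + 2 * X) ^ (3 * (h - k)))

noncomputable def v (F : Type*) [Field F] (h : ℕ) : F[X] := ∑ k ∈ range (h + 1),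
  ((h.choose k ^ 2 : ℕ) : F[X]) * (X ^ (3 * k) * (2 + X) ^ k * (1 + 2 * X) ^ (h - k))

lemma Lu (h : ℕ) (hh : (2 * h + 1 : F[X]) = 0) : L (u F h) = 0 := by
  unfold u
  rw [L_sum]
  have := tele h (X * (2 + X) ^ 3 : F[X]) ((1 + 2 * X) ^ 3)
    (fun k j => X ^ k * (2 + X) ^ (3 * k) * (1 + 2 * X) ^ (3 * j)) (fun k j => by ring)
  rw [← mul_zero (4 * (1 - X) ^ 2 : F[X]), ← this, mul_sum]
  refine sum_congr rfl fun k hk => ?_
  rw [L_u k (h - k) (by
    rw [← hh, Nat.cast_sub (by have := mem_range.1 hk; omega)]; ring)]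
  ring

lemma Lv (h : ℕ) (hh : (2 * h + 1 : F[X]) = 0) : L (v F h) = 0 := by
  unfold v
  rw [L_sum]
  have := tele h (X ^ 3 * (2 + X) : F[X]) (1 + 2 * X)
    (fun k j => X ^ (3 * k) * (2 + X) ^ k * (1 + 2 * X) ^ j) (fun k j => by ring)
  rw [← mul_zero (36 * (1 + X) ^ 2 : F[X]), ← this, mul_sum]
  refine sum_congr rfl fun k hk => ?_
  rw [L_v k (h - k) (by
    rw [← hh, Nat.cast_sub (by have := mem_range.1 hk; omega)]; ring)]
  ring

lemma th_X (n : ℕ) (g : F[X]) : th (X ^ n * g) = 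
    X ^ n * ((n : F[X]) * ((2 + X) * (1 + 2 * X)) * g + th g) := by
  have := th_mon (F := F) n 0 0
  simp only [pow_zero, mul_one, Nat.cast_zero, zero_mul, mul_zero, add_zero] at this
  rw [th_mul, this]; ring

lemma step (w : F[X]) (hw : L w = 0) (n : ℕ) (hn : (2 * n : F) ≠ 0) (hd : X ^ n ∣ w) :
    X ^ (n + 1) ∣ w := by
  obtain ⟨g, rfl⟩ := hd
  unfold L at hw
  rw [th_X, th_X] at hw
  set g1 := (n : F[X]) * ((2 + X) * (1 + 2 * X)) * g + th g with hg1
  have h2 : X ^ n * ((1 - X ^ 2) * ((n : F[X]) * ((2 + X) * (1 + 2 * X)) * g1 + th g1) -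
      2 * X ^ 2 * (2 + X) * (1 + 2 * X) * g1 +
      2 * (X * (2 + X) * (1 + 2 * X)) * (1 - 6 * X ^ 2 - 4 * X ^ 3) * g) = 0 := by
    linear_combination hw
  have h3 := congrArg (eval 0) ((mul_eq_zero.1 h2).resolve_left (pow_ne_zero _ X_ne_zero))
  simp [hg1, th] at h3
  rw [pow_succ]
  refine mul_dvd_mul_left _ (X_dvd_iff.2 ?_)
  rw [coeff_zero_eq_eval_zero]
  have h4 : (n : F) ≠ 0 := right_ne_zero_of_mul hn
  have h5 : (2 : F) ≠ 0 := left_ne_zero_of_mul hn
  tauto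

lemma nd1 : (2 + X : F[X]).natDegree ≤ 1 := by compute_degree
lemma nd2 : (1 + 2 * X : F[X]).natDegree ≤ 1 := by compute_degree

lemma ndp {f : F[X]} (hf : f.natDegree ≤ 1) (n : ℕ) : (f ^ n).natDegree ≤ n :=
  natDegree_pow_le.trans (by nlinarith)

lemma refl_pow {f : F[X]} (hf : f.natDegree ≤ 1) (n : ℕ) :
    reflect n (f ^ n) = reflect 1 f ^ n := by
  induction n with
  | zero => simp
  | succ n ih => rw [pow_succ, reflect_mul _ _ (ndp hf n) hf, ih, pow_succ]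

lemma r1 : reflect 1 (2 + X : F[X]) = 1 + 2 * X := by
  rw [show (2 + X : F[X]) = C 2 * X ^ 0 + X ^ 1 by simp [map_ofNat], reflect_add, reflect_C_mul_X_pow,
    reflect_monomial]
  simp [map_ofNat, add_comm]

lemma r2 : reflect 1 (1 + 2 * X : F[X]) = 2 + X := by
  rw [show (1 + 2 * X : F[X]) = X ^ 0 + C 2 * X ^ 1 by simp [map_ofNat], reflect_add,
    reflect_C_mul_X_pow, reflect_monomial]
  simp [map_ofNat, add_comm]

lemma mon_deg (a b c : ℕ) : ((X : F[X]) ^ a * (2 + X) ^ b * (1 + 2 * X) ^ c).natDegree ≤ a + b + c :=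
  natDegree_mul_le.trans (add_le_add (natDegree_mul_le.trans
    (add_le_add (natDegree_X_pow_le a) (ndp nd1 b))) (ndp nd2 c))

lemma mon_refl (a a' b c : ℕ) :
    reflect (a + a' + b + c) ((X : F[X]) ^ a * (2 + X) ^ b * (1 + 2 * X) ^ c) =
      X ^ a' * (2 + X) ^ c * (1 + 2 * X) ^ b := by
  have h1 : ((X : F[X]) ^ a).natDegree ≤ a + a' := (natDegree_X_pow_le a).trans (by omega)
  rw [reflect_mul _ _ (natDegree_mul_le.trans (add_le_add h1 (ndp nd1 b))) (ndp nd2 c),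
    reflect_mul _ _ h1 (ndp nd1 b), refl_pow nd1, refl_pow nd2, r1, r2, reflect_monomial,
    revAt_le (by omega), Nat.add_sub_cancel_left]
  ring

lemma refl_sum (N : ℕ) (s : Finset ℕ) (c : ℕ → ℕ) (f : ℕ → F[X]) :
    reflect N (∑ k ∈ s, (c k : F[X]) * f k) = ∑ k ∈ s, (c k : F[X]) * reflect N (f k) := by
  induction s using Finset.induction_on with
  | empty => simp
  | insert a s ha ih =>
    rw [sum_insert ha, sum_insert ha, reflect_add, ih, ← map_natCast C, reflect_C_mul]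

lemma deg_sum (N : ℕ) (s : Finset ℕ) (c : ℕ → ℕ) (f : ℕ → F[X]) (h : ∀ k ∈ s, (f k).natDegree ≤ N) :
    (∑ k ∈ s, (c k : F[X]) * f k).natDegree ≤ N :=
  natDegree_sum_le_of_forall_le _ _ fun k hk => by
    rw [← map_natCast C]; exact (natDegree_C_mul_le _ _).trans (h k hk)

lemma refl_u (h : ℕ) : reflect (4 * h) (u F h) = u F h := by
  unfold u
  rw [refl_sum, ← sum_range_reflect]
  refine sum_congr rfl fun k hk => ?_
  obtain ⟨j, rfl⟩ : ∃ j, h = k + j := ⟨h - k, by have := mem_range.1 hk; omega⟩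
  rw [show k + j + 1 - 1 - k = j by omega, show k + j - j = k by omega, show k + j - k = j by omega,
    show 4 * (k + j) = j + k + 3 * j + 3 * k by ring, mon_refl, Nat.choose_symm_add]

lemma refl_v (h : ℕ) : reflect (4 * h) (v F h) = v F h := by
  unfold v
  rw [refl_sum, ← sum_range_reflect]
  refine sum_congr rfl fun k hk => ?_
  obtain ⟨j, rfl⟩ : ∃ j, h = k + j := ⟨h - k, by have := mem_range.1 hk; omega⟩
  rw [show k + j + 1 - 1 - k = j by omega, show k + j - j = k by omega, show k + j - k = j by omega,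
    show 4 * (k + j) = 3 * j + 3 * k + j + k by ring, mon_refl, Nat.choose_symm_add]

theorem u_eq_v (h : ℕ) (hh : (2 * h + 1 : F) = 0) (hn : ∀ n : ℕ, 0 < n → n ≤ 2 * h → (2 * n : F) ≠ 0) :
    u F h = v F h := by
  have hh' : (2 * h + 1 : F[X]) = 0 := by
    have := congrArg (C : F →+* F[X]) hh
    simpa [map_ofNat] using this
  have hL : L (u F h - v F h) = 0 := by rw [L_sub, Lu h hh', Lv h hh', sub_zero]
  have hd : ∀ n, n ≤ 2 * h → X ^ (n + 1) ∣ u F h - v F h := by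
    intro n hn2
    induction n with
    | zero =>
      rw [zero_add, pow_one, X_dvd_iff, coeff_zero_eq_eval_zero]
      unfold u v
      rw [← sum_sub_distrib, eval_finsetSum]
      refine sum_eq_zero fun k _ => ?_
      cases k <;> simp
    | succ n ih => exact step _ hL _ (hn _ (by omega) hn2) (ih (by omega))
  have h0 := X_pow_dvd_iff.1 (hd _ le_rfl)
  have hr : reflect (4 * h) (u F h - v F h) = u F h - v F h := by rw [reflect_sub, refl_u, refl_v]
  have hdeg : (u F h - v F h).natDegree ≤ 4 * h := by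
    refine (natDegree_sub_le _ _).trans (max_le (deg_sum _ _ _ _ fun k hk => ?_)
      (deg_sum _ _ _ _ fun k hk => ?_)) <;>
    exact (mon_deg _ _ _).trans (by have := mem_range.1 hk; omega)
  rw [← sub_eq_zero]
  ext i
  rw [coeff_zero]
  rcases lt_or_ge i (2 * h + 1) with hi | hi
  · exact h0 i hi
  · rcases le_or_gt i (4 * h) with hi2 | hi2
    · rw [← hr, coeff_reflect, revAt_le hi2]; exact h0 _ (by omega)
    · exact coeff_eq_zero_of_natDegree_lt (by omega)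

end Pool.Agent.H.MP_c87117_nt
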